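import Pool.Agent.H29.EU.Cross

/-!
# The connections of the slit strips in layered environments: universality and independence

Bond percolation on `ℤ²` in the slit strips, with independent edges. The horizontal edges of the layer
`s` (the edges which join the heights `s` and `s + 1`) are open with probability `h s`, the vertical
edges of the layer with probability `1 - h s`, where `h (2n+1) = 1 - h (2n)`; the environment `h` is
otherwise arbitrary, and it may be different on the right of the slit. For `h = 1/2` this is critical
bond percolation on `ℤ²`.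

The height `0` and the slit cut the slit strip into three half-infinite strips (the parts). The state of
a part says which of the vertices of the height `0` are joined inside the part, where the right side of
the part is regarded as one vertex (so that it also says which of them are joined to the right side).
The joint law of the three states is exactly the same in all environments, and for critical
percolation the three states are exactly independent of the differences of the anisotropies of the two
layers of all the double layers of the three parts. Every event which depends only on the states has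
these two properties: for instance the crossing event of the slit strip, the number of the different
clusters of a part which contain vertices of the height `0`, the set of the vertices of the height `0`
joined to a wall, and the connections of these vertices in the slit strip.

Coordinates: the column of the vertex `(u,v)` of `ℤ²` is `u - v`, its height is `u + v` (rotation by
45 degrees). The vertices of the height `0` are the `(c, -c)`.
-/

set_option autoImplicit false

namespace Pool.Agent.Results.MP_35f495_pr.ConnectionUniversality

open MeasureTheory ProbabilityTheory unitInterval Filter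

/-- edges of `ℤ²`: `(u,v,false)` is the horizontal edge from `(u,v)` to `(u+1,v)`, `(u,v,true)` is the
vertical edge from `(u,v)` to `(u,v+1)`; the layer of the edge is `u + v` -/
abbrev Edge := ℤ × ℤ × Bool

/-- configurations (`true` = open) -/
abbrev Conf := Edge → Bool

/-- `x` and `y` are the two ends of an open edge -/
def OpenAdj (ω : Conf) (x y : ℤ × ℤ) : Prop :=
  (y = (x.1 + 1, x.2) ∧ ω (x.1, x.2, false) = true) ∨
  (x = (y.1 + 1, y.2) ∧ ω (y.1, y.2, false) = true) ∨
  (y = (x.1, x.2 + 1) ∧ ω (x.1, x.2, true) = true) ∨
  (x = (y.1, y.2 + 1) ∧ ω (y.1, y.2, true) = true)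

/-- bond percolation with independent edges, `p e` is the probability that `e` is open -/
noncomputable def perc (p : Edge → I) : Measure Conf :=
  Measure.infinitePi (fun e : Edge => bernoulliMeasure true false (p e))

/-- the parameter `1/2`: `perc (fun _ => half)` is critical bond percolation on `ℤ²` -/
noncomputable def half : I := ⟨1/2, by norm_num, by norm_num⟩

/-- the environment: horizontal edges of the layer `s` are open with probability `h s`, vertical ones
with probability `1 - h s`; on the right of the slit `h` is replaced by `g` -/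
def env (h g : ℤ → I) (e : Edge) : I :=
  let x := if 0 ≤ e.1 + e.2.1 ∧ 1 ≤ e.1 - e.2.1 then g (e.1 + e.2.1) else h (e.1 + e.2.1)
  if e.2.2 then σ x else x

/-- the layers `2n` and `2n+1` have opposite anisotropies; in each of the three parts of the slit
strip there are infinitely many layers with parameters in `[ε, 1 - ε]`, for some `ε > 0` -/
structure Env (h g : ℤ → I) : Prop where
  h_pair : ∀ n : ℤ, h (2 * n + 1) = σ (h (2 * n))
  g_pair : ∀ n : ℤ, g (2 * n + 1) = σ (g (2 * n))
  h_up : ∃ ε : ℝ, 0 < ε ∧ ∃ᶠ n : ℕ in atTop, ε ≤ (h (2 * n) : ℝ) ∧ (h (2 * n) : ℝ) ≤ 1 - ε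
  g_up : ∃ ε : ℝ, 0 < ε ∧ ∃ᶠ n : ℕ in atTop, ε ≤ (g (2 * n) : ℝ) ∧ (g (2 * n) : ℝ) ≤ 1 - ε
  h_down : ∃ ε : ℝ, 0 < ε ∧ ∃ᶠ n : ℕ in atTop, ε ≤ (h (-(2 * n)) : ℝ) ∧ (h (-(2 * n)) : ℝ) ≤ 1 - ε

/-- the vertices of the three parts of the slit strip: `l = 0` is the lower strip (columns `[-a, b+1]`,
heights `≤ 0`), `l = 1` the upper left strip (columns `[-a, 0]`, heights `≥ 0`) and `l = 2` the upper
right strip (columns `[1, b+1]`, heights `≥ 0`) -/
def Part (a b : ℕ) (l : Fin 3) (x : ℤ × ℤ) : Prop :=
  if l = 0 then -(a:ℤ) ≤ x.1 - x.2 ∧ x.1 - x.2 ≤ b + 1 ∧ x.1 + x.2 ≤ 0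
  else if l = 1 then -(a:ℤ) ≤ x.1 - x.2 ∧ x.1 - x.2 ≤ 0 ∧ 0 ≤ x.1 + x.2
  else 1 ≤ x.1 - x.2 ∧ x.1 - x.2 ≤ b + 1 ∧ 0 ≤ x.1 + x.2

/-- the column of the right side of the part: the left bank of the slit (column `0`) for the upper left
strip, the right wall (column `b+1`) for the two other parts -/
def side (b : ℕ) (l : Fin 3) : ℤ := if l = 1 then 0 else b + 1

/-- `x` and `y` are vertices of the part, joined by an open edge or both on the right side -/
def Link (a b : ℕ) (ω : Conf) (l : Fin 3) (x y : ℤ × ℤ) : Prop :=
  Part a b l x ∧ Part a b l y ∧ (OpenAdj ω x y ∨ (x.1 - x.2 = side b l ∧ y.1 - y.2 = side b l))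

/-- The states of the three parts: `state a b ω l c d` says that the vertices `(c, -c)` and `(d, -d)` of
the height `0` are joined inside the part `l` by open paths, where the right side of the part is
regarded as one vertex. -/
def state (a b : ℕ) (ω : Conf) (l : Fin 3) (c d : ℤ) : Prop :=
  Relation.ReflTransGen (Link a b ω l) (c, -c) (d, -d)

/-- open adjacency in the slit strip with the columns `[-a, b+1]`; the slit separates the columns
`≤ 0` from the columns `≥ 1` at the heights `≥ 0` -/
def SAdj (a b : ℕ) (ω : Conf) (x y : ℤ × ℤ) : Prop :=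
  OpenAdj ω x y ∧ -(a:ℤ) ≤ x.1 - x.2 ∧ x.1 - x.2 ≤ b + 1 ∧ -(a:ℤ) ≤ y.1 - y.2 ∧ y.1 - y.2 ≤ b + 1 ∧
    ¬ (0 ≤ x.1 + x.2 ∧ 0 ≤ y.1 + y.2 ∧
      ((x.1 - x.2 ≤ 0 ∧ 0 < y.1 - y.2) ∨ (y.1 - y.2 ≤ 0 ∧ 0 < x.1 - x.2)))

/-- the left bank of the slit (column `0`, heights `≥ 0`) is joined to the right wall (column `b+1`) by
an open path of the slit strip -/
def Cross (a b : ℕ) : Set Conf :=
  {ω | ∃ x y : ℤ × ℤ, x.1 - x.2 = 0 ∧ 0 ≤ x.1 + x.2 ∧ y.1 - y.2 = b + 1 ∧
    Relation.ReflTransGen (SAdj a b ω) x y}

/-- the edge in the unit square `[j, j+1] × [r, r+1]` of the (column, height) plane; its layer is `r` -/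
def edge (j r : ℤ) : Edge :=
  if (r + j) % 2 = 0 then ((r + j) / 2, (r - j) / 2, false)
  else ((r + j + 1) / 2, (r - j - 1) / 2, true)

/-- `1` for an open horizontal edge, `-1` for an open vertical edge, `0` for a closed edge -/
def sgn (ω : Conf) (e : Edge) : ℤ := if ω e = true then (if e.2.2 = true then -1 else 1) else 0

/-- the squares of the rows of the three parts of the slit strip -/
noncomputable def cols (a b : ℕ) (l : Fin 3) : Finset ℤ :=
  if l = 0 then Finset.Ico (-(a:ℤ)) (b + 1) else if l = 1 then Finset.Ico (-(a:ℤ)) 0
    else Finset.Ico 1 ((b:ℤ) + 1)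

/-- the even layer of the `n`-th double layer of the part `l` -/
def layer (l : Fin 3) (n : ℕ) : ℤ := if l = 0 then -(2 * (n:ℤ)) - 2 else 2 * n

/-- The anisotropy of a layer in a part of the strip is the number of its open horizontal edges minus
the number of its open vertical edges. `D (l, n)` is the anisotropy of the even layer minus the
anisotropy of the odd layer, in the `n`-th double layer of the part `l`. -/
noncomputable def D (a b : ℕ) (ω : Conf) (i : Fin 3 × ℕ) : ℤ :=
  ∑ j ∈ cols a b i.1, (sgn ω (edge j (layer i.1 i.2)) - sgn ω (edge j (layer i.1 i.2 + 1)))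

theorem perc_half : Pool.Agent.H988R2.Perc.perc = perc (fun _ => half) := Q292.Env.perc_eq_percP

/-- **Exact universality and exact independence of all the connections.** For all odd `a`, `b`:
(1) every event which depends only on the states of the three parts of the slit strip has the same
probability in all layered environments, and in critical percolation (`p = 1/2`);
(2) for critical percolation the states of the three parts are jointly independent of the whole
family `D a b`;
(3) the crossing event of the slit strip depends only on the states. -/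
theorem result :
    (∀ h g : ℤ → I, Env h g → ∀ a b : ℕ, Odd a → Odd b → ∀ E : Set (Fin 3 → ℤ → ℤ → Prop),
      MeasurableSet {ω | state a b ω ∈ E} ∧
      (perc (env h g)).real {ω | state a b ω ∈ E} =
        (perc (fun _ => half)).real {ω | state a b ω ∈ E}) ∧
    (∀ a b : ℕ, Odd a → Odd b → ∀ E : Set (Fin 3 → ℤ → ℤ → Prop),
      ∀ B : Set (Fin 3 × ℕ → ℤ), MeasurableSet B →
      (perc (fun _ => half)).real ({ω | state a b ω ∈ E} ∩ {ω | D a b ω ∈ B}) =
        (perc (fun _ => half)).real {ω | state a b ω ∈ E} *
          (perc (fun _ => half)).real {ω | D a b ω ∈ B}) ∧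
    (∀ a b : ℕ, Odd a → Odd b → ∀ ω : Conf, ω ∈ Cross a b ↔
      Relation.EqvGen (fun c d : ℤ => ∃ l, state a b ω l c d) 0 (((b:ℤ) + 1) / 2)) := by
  refine ⟨fun h g hn a b ha hb E => ⟨?_, ?_⟩, fun a b ha hb E B hB => ?_, fun a b ha hb ω => ?_⟩
  · obtain ⟨k, hk⟩ := id ha
    have h1 := Pool.Agent.H29.EU.state_set hk hb E
    have h2 := Pool.Agent.H29.EU.measurableSet_shp k
      (Pool.Agent.H29.EU.measurableSet_SI ha hb {r | Pool.Agent.H29.EU.Th a b r ∈ E})
    rw [← h1] at h2
    exact h2
  · have hn' : Q292.Env.Nondeg h g := ⟨hn.h_pair, hn.g_pair, hn.h_up, hn.g_up, hn.h_down⟩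
    rw [← perc_half]
    exact Pool.Agent.H29.EU.state_univ hn' ha hb E
  · rw [← perc_half]
    exact Pool.Agent.H29.EU.state_indep ha hb E B hB
  · exact Pool.Agent.H29.EU.cross_iff ha hb ω

end Pool.Agent.Results.MP_35f495_pr.ConnectionUniversality
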