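import Pool.Agent.H29.FE.Dep

/-!
# The forked channels in layered environments: exact universality, Cardy's formula with its sharp
rate, and independence

Bond percolation on `ℤ²` with independent edges. The horizontal edges of the layer `s` (the edges which
join the heights `s` and `s + 1`) are open with probability `h s`, the vertical edges of the layer with
probability `1 - h s`, where `h (2n+1) = 1 - h (2n)`; the environment `h` is otherwise arbitrary, and it
may be different in the right arm. For `h = 1/2` this is critical bond percolation on `ℤ²`.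

A forked channel is a half-infinite strip (going down) of width `a + m + b`, with two half-infinite
strips of widths `a` (flush on the left) and `b` (flush on the right) on top of it, separated by a slit
of width `m`. The probability of an open path from the inner wall of the left arm to the right wall is
exactly the same in all environments (odd widths). For all widths Cardy's formula holds in every
environment, with the same conformal maps, and with the same sharp rate: the error is of order
`δ^(2/3)` in the mesh `δ`, with a conformally covariant coefficient which does not depend on the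
environment. For critical percolation the crossing event is exactly independent of the differences of
the anisotropies of the two layers of all the double layers of the three parts of the channel.

Coordinates: the column of the vertex `(u,v)` of `ℤ²` is `u - v`, its height is `u + v` (rotation by
45 degrees).
-/

set_option autoImplicit false

namespace Pool.Agent.Results.MP_35f495_pr.ForkedChannelUniversality

open MeasureTheory ProbabilityTheory unitInterval Filter Topology Set

/-- edges of `ℤ²`: `(u,v,false)` is the horizontal edge from `(u,v)` to `(u+1,v)`, `(u,v,true)` is the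
vertical edge from `(u,v)` to `(u,v+1)`; the layer of the edge is `u + v` -/
abbrev Edge := ℤ × ℤ × Bool

/-- configurations (`true` = open) -/
abbrev Conf := Edge → Bool

/-- `x` and `y` are the two ends of an open edge -/
def OpenAdj (ω : Conf) (x y : ℤ × ℤ) : Prop :=
  (y = (x.1 + 1, x.2) ∧ ω (x.1, x.2, false) = true) ∨
  (x = (y.1 + 1, y.2) ∧ ω (y.1, y.2, false) = true) ∨
  (y = (x.1, x.2 + 1) ∧ ω (x.1, x.2, true) = true) ∨
  (x = (y.1, y.2 + 1) ∧ ω (y.1, y.2, true) = true)

/-- bond percolation with independent edges, `p e` is the probability that `e` is open -/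
noncomputable def perc (p : Edge → I) : Measure Conf :=
  Measure.infinitePi (fun e : Edge => bernoulliMeasure true false (p e))

/-- the parameter `1/2`: `perc (fun _ => half)` is critical bond percolation on `ℤ²` -/
noncomputable def half : I := ⟨1/2, by norm_num, by norm_num⟩

/-- the environment: horizontal edges of the layer `s` are open with probability `h s`, vertical ones
with probability `1 - h s`; at the heights `≥ 0` on the right of the column `0` (in particular in the
right arm) `h` is replaced by `g` -/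
def env (h g : ℤ → I) (e : Edge) : I :=
  let x := if 0 ≤ e.1 + e.2.1 ∧ 1 ≤ e.1 - e.2.1 then g (e.1 + e.2.1) else h (e.1 + e.2.1)
  if e.2.2 then σ x else x

/-- the layers `2n` and `2n+1` have opposite anisotropies; in each of the three parts of the channel
there are infinitely many layers with parameters in `[ε, 1 - ε]`, for some `ε > 0` -/
structure Env (h g : ℤ → I) : Prop where
  h_pair : ∀ n : ℤ, h (2 * n + 1) = σ (h (2 * n))
  g_pair : ∀ n : ℤ, g (2 * n + 1) = σ (g (2 * n))
  h_up : ∃ ε : ℝ, 0 < ε ∧ ∃ᶠ n : ℕ in atTop, ε ≤ (h (2 * n) : ℝ) ∧ (h (2 * n) : ℝ) ≤ 1 - ε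
  g_up : ∃ ε : ℝ, 0 < ε ∧ ∃ᶠ n : ℕ in atTop, ε ≤ (g (2 * n) : ℝ) ∧ (g (2 * n) : ℝ) ≤ 1 - ε
  h_down : ∃ ε : ℝ, 0 < ε ∧ ∃ᶠ n : ℕ in atTop, ε ≤ (h (-(2 * n)) : ℝ) ∧ (h (-(2 * n)) : ℝ) ≤ 1 - ε

/-- The column of the vertex `(u,v)` is `u - v`, its height is `u + v`. Open edges of the forked
channel: both ends have their column in `[-a, m+b]`; the edges with both ends at height `≥ 0` and
both ends in the columns `[0, m]` (the slit) are removed. -/
def FAdj (a m b : ℕ) (ω : Conf) (x y : ℤ × ℤ) : Prop :=
  OpenAdj ω x y ∧ -(a:ℤ) ≤ x.1 - x.2 ∧ x.1 - x.2 ≤ ((m+b : ℕ) : ℤ) ∧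
    -(a:ℤ) ≤ y.1 - y.2 ∧ y.1 - y.2 ≤ ((m+b : ℕ) : ℤ) ∧
    ¬ (0 ≤ x.1 + x.2 ∧ 0 ≤ y.1 + y.2 ∧ 0 ≤ x.1 - x.2 ∧ x.1 - x.2 ≤ m ∧
      0 ≤ y.1 - y.2 ∧ y.1 - y.2 ≤ m)

/-- There is an open path of the forked channel from a vertex of the inner wall of the left arm
(column `0`, height `≥ 0`) to a vertex of the right wall (column `m + b`). -/
def Cross (a m b : ℕ) : Set Conf :=
  {ω | ∃ x y : ℤ × ℤ, x.1 - x.2 = 0 ∧ 0 ≤ x.1 + x.2 ∧ y.1 - y.2 = ((m+b : ℕ) : ℤ) ∧
    Relation.ReflTransGen (FAdj a m b ω) x y}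

/-- Cardy's function: the normalised primitive of `(t(1-t))^(-2/3)` -/
noncomputable def cardy (x : ℝ) : ℝ :=
  (∫ t in (0:ℝ)..x, (t*(1-t))^(-(2:ℝ)/3)) / ∫ t in (0:ℝ)..1, (t*(1-t))^(-(2:ℝ)/3)

/-- the forked channel: the strip `-α < X < γ + β` without the slit `{0 ≤ X ≤ γ, Y ≥ 0}` -/
def Dom (α γ β : ℝ) : Set ℂ := {w | -α < w.re ∧ w.re < γ + β ∧ (0 ≤ w.re → w.re ≤ γ → w.im < 0)}

/-- `f` is an orientation reversing conformal map of the upper half-plane onto the forked channel,
with the boundary correspondence: left wall, inner wall of the left arm, left corner of the slit,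
ledge (bottom of the slit), right corner of the slit, inner wall of the right arm, right wall =
`(-∞,0)`, `(0,x)`, `x`, `(x,x')`, `x'`, `(x',1)`, `(1,∞)`. So the cross-ratio of (inner wall of the
left arm, right wall) is `x`. -/
structure Uniformizes (α γ β x x' : ℝ) (f : ℂ → ℂ) : Prop where
  /-- the complex conjugate of `f` is holomorphic in the upper half-plane -/
  holo : DifferentiableOn ℂ (fun z => (starRingEnd ℂ) (f z)) {z | 0 < z.im}
  /-- `f` is a bijection of the upper half-plane onto the forked channel -/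
  bij : BijOn f {z | 0 < z.im} (Dom α γ β)
  /-- `f` is continuous up to the boundary (without `0` and `1`) -/
  cont : ContinuousOn f {z : ℂ | 0 ≤ z.im ∧ z ≠ 0 ∧ z ≠ 1}
  /-- `(-∞,0)` is mapped to the left wall -/
  leftWall : BijOn (fun t : ℝ => f t) (Iio 0) {w | w.re = -α}
  /-- `(0,x)` is mapped to the inner wall of the left arm -/
  innerWall : BijOn (fun t : ℝ => f t) (Ioo 0 x) {w | w.re = 0 ∧ 0 < w.im}
  /-- `x` is mapped to the left corner of the slit -/
  corner : f (x : ℂ) = 0
  /-- `(x,x')` is mapped to the ledge -/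
  ledge : BijOn (fun t : ℝ => f t) (Ioo x x') {w | w.im = 0 ∧ 0 < w.re ∧ w.re < γ}
  /-- `x'` is mapped to the right corner of the slit -/
  corner' : f (x' : ℂ) = (γ : ℂ)
  /-- `(x',1)` is mapped to the inner wall of the right arm -/
  innerWall' : BijOn (fun t : ℝ => f t) (Ioo x' 1) {w | w.re = γ ∧ 0 < w.im}
  /-- `(1,∞)` is mapped to the right wall -/
  rightWall : BijOn (fun t : ℝ => f t) (Ioi 1) {w | w.re = γ + β}

/-- the lattice constant `2^(-1/3) Γ(5/6) / (Γ(1/2) Γ(2/3))` -/
noncomputable def cR : ℝ := 2^(-(1:ℝ)/3) * (Real.Gamma (5/6) / (Real.Gamma (1/2) * Real.Gamma (2/3)))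

/-- the edge in the unit square `[j, j+1] × [r, r+1]` of the (column, height) plane; its layer is `r` -/
def edge (j r : ℤ) : Edge :=
  if (r + j) % 2 = 0 then ((r + j) / 2, (r - j) / 2, false)
  else ((r + j + 1) / 2, (r - j - 1) / 2, true)

/-- `1` for an open horizontal edge, `-1` for an open vertical edge, `0` for a closed edge -/
def sgn (ω : Conf) (e : Edge) : ℤ := if ω e = true then (if e.2.2 = true then -1 else 1) else 0

/-- the squares of the rows of the three parts of the channel: `l = 0` is the lower part (layers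
`≤ -1`), `l = 1` the left arm and `l = 2` the right arm (layers `≥ 0`) -/
noncomputable def cols (a m b : ℕ) (l : Fin 3) : Finset ℤ :=
  if l = 0 then Finset.Ico (-(a:ℤ)) (m + b) else if l = 1 then Finset.Ico (-(a:ℤ)) 0
    else Finset.Ico (m:ℤ) (m + b)

/-- the even layer of the `n`-th double layer of the part `l` -/
def layer (l : Fin 3) (n : ℕ) : ℤ := if l = 0 then -(2 * (n:ℤ)) - 2 else 2 * n

/-- The anisotropy of a layer in a part of the channel is the number of its open horizontal edges
minus the number of its open vertical edges. `D (l, n)` is the anisotropy of the even layer minus the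
anisotropy of the odd layer, in the `n`-th double layer of the part `l`. -/
noncomputable def D (a m b : ℕ) (ω : Conf) (i : Fin 3 × ℕ) : ℤ :=
  ∑ j ∈ cols a m b i.1, (sgn ω (edge j (layer i.1 i.2)) - sgn ω (edge j (layer i.1 i.2 + 1)))

theorem perc_half : Pool.Agent.H988R2.Perc.perc = perc (fun _ => half) := Q292.Env.perc_eq_percP

open Pool.Agent.NH38.Fork in
theorem sv_coeff_zero (a : ℕ) : (sv a).coeff 0 = 1 + kap a ∧ (sv (a+1)).coeff 0 = 1 + kap (a+1) := by
  have hk : ∀ n : ℕ, kap (n+1) = kap n * (((n:ℚ) + 4/3) / (n + 2/3)) := fun n => by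
    unfold kap; rw [Finset.prod_range_succ]
  induction a with
  | zero =>
    have h0 : kap 0 = 1 := by simp [kap]
    have h1 : kap 1 = 2 := by rw [hk 0, h0]; norm_num
    refine ⟨?_, ?_⟩
    · rw [h0]; simp only [sv, pv, Polynomial.coeff_C_zero]; norm_num
    · rw [zero_add, h1]; simp only [sv, pv, Polynomial.coeff_C_zero]; norm_num
  | succ n ih =>
    obtain ⟨h1, h2⟩ := ih
    refine ⟨h2, ?_⟩
    have hi : ((if Even n then (1:Polynomial ℚ) + Polynomial.X else 1)).coeff 0 = 1 := by
      split_ifs <;> simp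
    have e : (sv (n+1+1)).coeff 0 = 1 / (3*(n:ℚ)+5) * ((6*(n:ℚ)+9) * (sv (n+1)).coeff 0 -
        (3*(n:ℚ)+4) * (sv n).coeff 0) := by
      show (Polynomial.C (1 / (3*(n:ℚ)+5)) * (Polynomial.C (6*(n:ℚ)+9) *
        (if Even n then 1 + Polynomial.X else 1) * pv 2 3 (n+1) -
        Polynomial.C (3*(n:ℚ)+4) * pv 2 3 n)).coeff 0 = _
      rw [Polynomial.mul_coeff_zero, Polynomial.coeff_sub, Polynomial.mul_coeff_zero,
        Polynomial.mul_coeff_zero, Polynomial.mul_coeff_zero, hi, Polynomial.coeff_C_zero,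
        Polynomial.coeff_C_zero, Polynomial.coeff_C_zero, mul_one]
      rfl
    rw [e, h1, h2, hk (n+1), hk n]
    have a1 : (3*(n:ℚ)+5) ≠ 0 := by positivity
    have a2 : ((n:ℚ) + 2/3) ≠ 0 := by positivity
    have a3 : ((n:ℚ) + 1 + 2/3) ≠ 0 := by positivity
    push_cast
    field_simp
    ring

open Pool.Agent.NH38.Fork in
/-- **The forked channels in layered environments.**
(1) exact universality of the crossing probability for odd widths; (2) Cardy's formula in all
environments and for all widths, with the same conformal map, and its sharp rate with the same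
coefficient (`Λ` is the coefficient of `f` at the left corner of the slit, `f(t) ~ Λ (t-x)^(3/2)`);
(3) the one-arm function at the left corner of the slit (left arm with a fixed odd number of columns);
(4) exact independence, at `p = 1/2`, of the crossing event and of the family `D`. -/
theorem result :
    (∀ h g : ℤ → I, Env h g → ∀ a m b : ℕ, Odd a → Odd m → Odd b →
      (perc (env h g)).real (Cross a m b) = (perc (fun _ => half)).real (Cross a m b)) ∧
    (∀ α γ β : ℝ, 0 < α → 0 < γ → 0 < β → ∃ x x' : ℝ, 0 < x ∧ x < x' ∧ x' < 1 ∧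
      x * x' = (α / (α + γ + β))^2 ∧ (1 - x) * (1 - x') = (β / (α + γ + β))^2 ∧
      ∃ (f : ℂ → ℂ) (Λ : ℝ), Uniformizes α γ β x x' f ∧ 0 < Λ ∧
      Tendsto (fun t : ℝ => (f t).re / (t - x)^((3:ℝ)/2)) (𝓝[>] x) (𝓝 Λ) ∧
      ∀ h g : ℤ → I, Env h g →
      (∀ (δ : ℕ → ℝ) (a m b : ℕ → ℕ), (∀ n, 0 < δ n) → Tendsto δ atTop (𝓝 0) →
        Tendsto (fun n => δ n * a n) atTop (𝓝 α) → Tendsto (fun n => δ n * m n) atTop (𝓝 γ) →
        Tendsto (fun n => δ n * b n) atTop (𝓝 β) →
        Tendsto (fun n => (perc (env h g)).real (Cross (a n) (m n) (b n))) atTop (𝓝 (cardy x))) ∧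
      (∀ (K : ℝ) (δ : ℕ → ℝ) (a m b : ℕ → ℕ), (∀ n, 0 < δ n) → Tendsto δ atTop (𝓝 0) →
        (∀ n, |δ n * a n - α| ≤ K * δ n) → (∀ n, |δ n * m n - γ| ≤ K * δ n) →
        (∀ n, |δ n * b n - β| ≤ K * δ n) →
        Tendsto (fun n => ((perc (env h g)).real (Cross (a n) (m n) (b n)) - cardy x) /
          (δ n)^((2:ℝ)/3)) atTop
          (𝓝 (cR * (2 / (3 * Real.pi))^((2:ℝ)/3) * (Λ * (x * (1 - x)))^(-(2:ℝ)/3))))) ∧
    (∀ h g : ℤ → I, Env h g → ∀ (a : ℕ) (γ β : ℝ), Odd a → 0 < γ → 0 ≤ β →
      ∀ (δ : ℕ → ℝ) (m b : ℕ → ℕ), (∀ n, 0 < δ n) → Tendsto δ atTop (𝓝 0) →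
      Tendsto (fun n => δ n * m n) atTop (𝓝 γ) → Tendsto (fun n => δ n * b n) atTop (𝓝 β) →
      Tendsto (fun n => (perc (env h g)).real (Cross a (m n) (b n)) / (δ n)^((2:ℝ)/3)) atTop
        (𝓝 ((1 + ∏ i ∈ Finset.range a, (3 * (i:ℝ) + 4) / (3 * i + 2)) * cR *
          (γ * (γ + 2*β))^(-(1:ℝ)/3)))) ∧
    (∀ a m b : ℕ, Odd a → Odd m → Odd b → ∀ B : Set (Fin 3 × ℕ → ℤ), MeasurableSet B →
      (perc (fun _ => half)).real (Cross a m b ∩ {ω | D a m b ω ∈ B}) =
        (perc (fun _ => half)).real (Cross a m b) *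
          (perc (fun _ => half)).real {ω | D a m b ω ∈ B}) := by
  have hN' : ∀ {h g : ℤ → I}, Env h g → Q292.Env.Nondeg h g := fun hn =>
    ⟨hn.h_pair, hn.g_pair, hn.h_up, hn.g_up, hn.h_down⟩
  refine ⟨fun h g hn a m b ha hm hb => ?_, ?_, ?_, fun a m b ha hm hb B hB => ?_⟩
  · rw [← perc_half]
    exact Pool.Agent.H29.FE.fcrossP_eq (hN' hn) ha hm hb
  · intro α γ β hα hγ hβ
    have hN : 0 < α + γ + β := by positivity
    obtain ⟨f, hf, hL⟩ := t_UGL α γ β hα hγ hβ
    set A : ℝ := (α / (α + γ + β))^2 with hA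
    set B : ℝ := (β / (α + γ + β))^2 with hB
    have hr : 0 < α / (α + γ + β) := by positivity
    have hs : 0 < β / (α + γ + β) := by positivity
    have hrs : α / (α + γ + β) + β / (α + γ + β) < 1 := by
      rw [← add_div, div_lt_one hN]; linarith
    have hA0 : 0 < A := by positivity
    have hB0 : 0 < B := by positivity
    -- the discriminant
    have hd : 0 < (1 + A - B)^2 - 4*A := by
      have e : (1 + A - B)^2 - 4*A = (1 - (α / (α + γ + β) + β / (α + γ + β))) *
          (1 + (α / (α + γ + β) + β / (α + γ + β))) *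
          ((1 - (α / (α + γ + β) - β / (α + γ + β))) *
          (1 + (α / (α + γ + β) - β / (α + γ + β)))) := by
        rw [hA, hB]; ring
      rw [e]
      have h1 : 0 < 1 - (α / (α + γ + β) + β / (α + γ + β)) := by linarith
      have h2 : 0 < 1 + (α / (α + γ + β) + β / (α + γ + β)) := by linarith
      have h3 : 0 < 1 - (α / (α + γ + β) - β / (α + γ + β)) := by linarith
      have h4 : 0 < 1 + (α / (α + γ + β) - β / (α + γ + β)) := by linarith
      positivity
    have hsq : rr A B * rr A B = (1 + A - B)^2 - 4*A := Real.mul_self_sqrt hd.le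
    have hrr : 0 < rr A B := Real.sqrt_pos.mpr hd
    have hprod : x1 A B * x2 A B = A := by unfold x1 x2; linear_combination (-1/4) * hsq
    have hprod' : (1 - x1 A B) * (1 - x2 A B) = B := by
      unfold x1 x2; linear_combination (-1/4) * hsq
    have hlt : x1 A B < x2 A B := by unfold x1 x2; linarith
    have hA1 : A < 1 := by
      rw [hA]; exact pow_lt_one₀ hr.le (by linarith) two_ne_zero
    have hB1 : B < 1 := by
      rw [hB]; exact pow_lt_one₀ hs.le (by linarith) two_ne_zero
    have hx2 : 0 < x2 A B := by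
      have : 0 < 1 + A - B := by linarith
      unfold x2; linarith
    have hx1 : 0 < x1 A B := by
      by_contra hc
      push Not at hc
      have := mul_nonpos_of_nonpos_of_nonneg hc hx2.le
      linarith
    have h1x : 0 < 1 - x1 A B := by
      have : 0 < 1 - A + B := by linarith
      unfold x1; linarith
    have hx2' : x2 A B < 1 := by
      by_contra hc
      push Not at hc
      have := mul_nonpos_of_nonneg_of_nonpos h1x.le (by linarith : 1 - x2 A B ≤ 0)
      linarith
    have hdx : 0 < x2 A B - x1 A B := by linarith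
    have hpi := Real.pi_pos
    refine ⟨x1 A B, x2 A B, hx1, hlt, hx2', hprod, hprod', f,
      2 * (α+γ+β) / (3 * Real.pi) * Real.sqrt (x2 A B - x1 A B) / (x1 A B * (1 - x1 A B)),
      ⟨hf.holo, hf.bij, hf.cont, hf.leftWall, hf.innerWall, hf.corner, hf.ledge,
        hf.corner', hf.innerWall', hf.rightWall⟩, ?_, hL _ _ rfl rfl, ?_⟩
    · have := Real.sqrt_pos.mpr hdx
      positivity
    · intro h g hn
      refine ⟨fun δ a m b hδ hδ0 ha hm hb => ?_, ?_⟩
      · exact Pool.Agent.H29.FE.limP (hN' hn) a_ExactG a_AsyG hα hγ hβ δ a m b hδ hδ0 ha hm hb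
      intro K δ a m b hδ hδ0 ha hm hb
      have h := Pool.Agent.H29.FE.rateP (hN' hn) a_ExactG
        (t_RateG t_MJ t_pos t_sE t_vE t_KE t_ME (t_F4 t_WI) t_B4 a_FGle)
        hα hγ hβ δ a m b hδ hδ0 ha hm hb
      have hx0 : x1 A B * (1 - x1 A B) ≠ 0 := (mul_pos hx1 h1x).ne'
      have e1 : 2 * (α+γ+β) / (3 * Real.pi) * Real.sqrt (x2 A B - x1 A B) /
          (x1 A B * (1 - x1 A B)) * (x1 A B * (1 - x1 A B)) =
          (2 / (3 * Real.pi)) * (α+γ+β) * Real.sqrt (x2 A B - x1 A B) := by
        rw [div_mul_cancel₀ _ hx0]; ring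
      have e2 : ((2 / (3 * Real.pi)) * (α+γ+β) * Real.sqrt (x2 A B - x1 A B))^(-(2:ℝ)/3) =
          (2 / (3 * Real.pi))^(-(2:ℝ)/3) * (α+γ+β)^(-(2:ℝ)/3) *
            (x2 A B - x1 A B)^(-(1:ℝ)/3) := by
        rw [Real.mul_rpow (by positivity) (Real.sqrt_nonneg _), Real.mul_rpow (by positivity) hN.le,
          Real.sqrt_eq_rpow, ← Real.rpow_mul hdx.le]
        norm_num
      have e3 : (2 / (3 * Real.pi))^((2:ℝ)/3) * (2 / (3 * Real.pi))^(-(2:ℝ)/3) = 1 := by
        rw [← Real.rpow_add (by positivity)]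
        norm_num
      have e4 : cR * (2 / (3 * Real.pi))^((2:ℝ)/3) *
          ((2 / (3 * Real.pi))^(-(2:ℝ)/3) * (α+γ+β)^(-(2:ℝ)/3) *
            (x2 A B - x1 A B)^(-(1:ℝ)/3)) =
          Pool.Agent.NH38.Fork.cR * (x2 A B - x1 A B)^(-(1:ℝ)/3) * (α+γ+β)^(-(2:ℝ)/3) := by
        have : cR = Pool.Agent.NH38.Fork.cR := rfl
        rw [this]
        calc _ = Pool.Agent.NH38.Fork.cR * (x2 A B - x1 A B)^(-(1:ℝ)/3) * (α+γ+β)^(-(2:ℝ)/3) *
              ((2 / (3 * Real.pi))^((2:ℝ)/3) * (2 / (3 * Real.pi))^(-(2:ℝ)/3)) := by ring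
          _ = _ := by rw [e3, mul_one]
      rw [e1, e2, e4]
      exact h
  · intro h g hn a γ β ha hγ hβ δ m b hδ hδ0 hm hb
    have h := Pool.Agent.H29.FE.oneP (hN' hn) a_ExactG
      (t_OneG t_MJ t_pos t_vvA t_ME t_svA a_FGle) ha hγ hβ δ m b hδ hδ0 hm hb
    have e : (((sv a).coeff 0 : ℚ) : ℝ) = 1 + ∏ i ∈ Finset.range a, (3 * (i:ℝ) + 4) / (3 * i + 2) := by
      rw [(sv_coeff_zero a).1]
      unfold kap
      push_cast
      congr 1
      refine Finset.prod_congr rfl fun i _ => ?_
      have h1 : ((i:ℝ) + 2/3) ≠ 0 := by positivity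
      have h2 : (3 * (i:ℝ) + 2) ≠ 0 := by positivity
      field_simp
    rw [← e]
    exact h
  · have hD : D a m b = fun ω i => Pool.Agent.H29.LE.DG (Pool.Agent.H29.FE.TF a m b)
        Pool.Agent.H29.FE.sF ω i := by
      funext ω i
      rw [Pool.Agent.H29.FE.DG_TF]
      rfl
    rw [← perc_half, hD]
    exact Pool.Agent.H29.FE.fcross_indep ha hm hb B hB

end Pool.Agent.Results.MP_35f495_pr.ForkedChannelUniversality
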