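import Pool.Agent.H29.TW.Lim

/-!
Critical bond percolation on `ℤ²` (`p = 1/2`): the tip of a slit and the two walls of a strip. The
exact probability that the tip is joined to the union of the two walls, the exact joint law of the
leftward and rightward extents of the open cluster of the tip in the slit plane, and the scaling
limits (with the constants), also for the event that the tip is joined to both walls; the limits
are written with the conformal map and are conformally covariant.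

Coordinates: the vertex `(u,v)` of `ℤ²` at mesh `δ` sits at `X + iY`, `X = δ (u - v)`,
`Y = δ (u + v)` (rotation by 45 degrees and scaling); the column of `(u,v)` is `u - v`, its height
is `u + v`.
-/

namespace Pool.Agent.Results.MP_35f495_pr.SlitTipTwoWalls

open MeasureTheory Filter Topology Set

/-- edges of `ℤ²`: `(u,v,false)` joins `(u,v)` and `(u+1,v)`; `(u,v,true)` joins `(u,v)` and
`(u,v+1)`. -/
abbrev Edge := ℤ × ℤ × Bool

/-- configurations (`true` = open) -/
abbrev Conf := Edge → Bool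

/-- `x` and `y` are the two ends of an open edge -/
def OpenAdj (ω : Conf) (x y : ℤ × ℤ) : Prop :=
  (y = (x.1 + 1, x.2) ∧ ω (x.1, x.2, false) = true) ∨
  (x = (y.1 + 1, y.2) ∧ ω (y.1, y.2, false) = true) ∨
  (y = (x.1, x.2 + 1) ∧ ω (x.1, x.2, true) = true) ∨
  (x = (y.1, y.2 + 1) ∧ ω (y.1, y.2, true) = true)

/-- bond percolation at `p = 1/2`: independent fair coins on the edges -/
noncomputable def perc : Measure Conf :=
  Measure.infinitePi (fun _ : Edge => (PMF.uniformOfFintype Bool).toMeasure)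

/-- Open edges of the plane with a slit: the slit is the part of the column `1` above its vertex
`(1,0)` (the tip, of height `1`); the edges with both ends at height `≥ 1` and an end in the column
`1` are removed. -/
def SlitAdj (ω : Conf) (x y : ℤ × ℤ) : Prop :=
  OpenAdj ω x y ∧ ¬ (1 ≤ x.1 + x.2 ∧ 1 ≤ y.1 + y.2 ∧ (x.1 - x.2 = 1 ∨ y.1 - y.2 = 1))

/-- Open edges of the slit strip: both ends in the columns `[1-p, 1+r]`. -/
def SAdj (p r : ℕ) (ω : Conf) (x y : ℤ × ℤ) : Prop :=
  SlitAdj ω x y ∧ 1 - (p:ℤ) ≤ x.1 - x.2 ∧ x.1 - x.2 ≤ 1 + r ∧ 1 - (p:ℤ) ≤ y.1 - y.2 ∧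
    y.1 - y.2 ≤ 1 + r

/-- The tip is joined to the left wall (the column `1-p`) by an open path of the slit strip. -/
def ToLeft (p r : ℕ) : Set Conf :=
  {ω | ∃ y : ℤ × ℤ, y.1 - y.2 = 1 - p ∧ Relation.ReflTransGen (SAdj p r ω) (1, 0) y}

/-- The tip is joined to the right wall (the column `1+r`) by an open path of the slit strip. -/
def ToRight (p r : ℕ) : Set Conf :=
  {ω | ∃ y : ℤ × ℤ, y.1 - y.2 = 1 + r ∧ Relation.ReflTransGen (SAdj p r ω) (1, 0) y}

/-- The open cluster of the tip in the slit plane reaches the column `1-a` (its leftward extent is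
at least `a`). -/
def LeftExt (a : ℕ) : Set Conf :=
  {ω | ∃ y : ℤ × ℤ, y.1 - y.2 = 1 - a ∧ Relation.ReflTransGen (SlitAdj ω) (1, 0) y}

/-- The open cluster of the tip in the slit plane reaches the column `1+b` (its rightward extent is
at least `b`). -/
def RightExt (b : ℕ) : Set Conf :=
  {ω | ∃ y : ℤ × ℤ, y.1 - y.2 = 1 + b ∧ Relation.ReflTransGen (SlitAdj ω) (1, 0) y}

/-- the product `s (s+1) ... (s+k-1)` -/
noncomputable def rising (s : ℝ) (k : ℕ) : ℝ := ∏ i ∈ Finset.range k, (s + i)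

/-- `F n = (1/3)_n / (1/2)_n` -/
noncomputable def F (n : ℕ) : ℝ := rising (1/3) n / rising (1/2) n

/-- the slit strip `{-α < X < β} \ {X = 0, Y ≥ 0}` -/
def Dom (α β : ℝ) : Set ℂ := {w | -α < w.re ∧ w.re < β ∧ (w.re = 0 → w.im < 0)}

/-- `f` is an orientation reversing conformal map of the upper half-plane onto the slit strip, with
the boundary correspondence: left wall, left bank of the slit, tip, right bank, right wall
= `(-∞,0)`, `(0,x)`, `x`, `(x,1)`, `(1,∞)`. -/
structure Uniformizes (α β x : ℝ) (f : ℂ → ℂ) : Prop where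
  /-- the complex conjugate of `f` is holomorphic in the upper half-plane -/
  holo : DifferentiableOn ℂ (fun z => (starRingEnd ℂ) (f z)) {z | 0 < z.im}
  /-- `f` is a bijection of the upper half-plane onto the slit strip -/
  bij : BijOn f {z | 0 < z.im} (Dom α β)
  /-- `f` is continuous up to the boundary (without `0`, `1`) -/
  cont : ContinuousOn f {z : ℂ | 0 ≤ z.im ∧ z ≠ 0 ∧ z ≠ 1}
  /-- `(-∞,0)` is mapped to the left wall -/
  leftWall : BijOn (fun t : ℝ => f t) (Iio 0) {w | w.re = -α}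
  /-- `(1,∞)` is mapped to the right wall -/
  rightWall : BijOn (fun t : ℝ => f t) (Ioi 1) {w | w.re = β}
  /-- `(0,x)` is mapped to the left bank of the slit -/
  leftBank : BijOn (fun t : ℝ => f t) (Ioo 0 x) {w | w.re = 0 ∧ 0 < w.im}
  leftBank' : ∀ t ∈ Ioo 0 x, ∀ᶠ z in 𝓝[{z : ℂ | 0 < z.im}] (t : ℂ), (f z).re < 0
  /-- `(x,1)` is mapped to the right bank of the slit -/
  rightBank : BijOn (fun t : ℝ => f t) (Ioo x 1) {w | w.re = 0 ∧ 0 < w.im}
  rightBank' : ∀ t ∈ Ioo x 1, ∀ᶠ z in 𝓝[{z : ℂ | 0 < z.im}] (t : ℂ), 0 < (f z).re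
  /-- `x` is mapped to the tip of the slit -/
  tip : f (x : ℂ) = 0

/-- (1) the exact probability that the tip of the slit is joined to one of the two walls of the
slit strip (at even distances `p`, `r`); (2) the exact joint law of the two extents of the open
cluster of the tip in the slit plane; (3) the asymptotics of (1) for all widths; (4) given that the
tip is joined to one of the walls, the conditional probabilities that it is joined to the right
wall, to the left wall, to both, when `p/(p+r) → x`; (5) the scaling limit of the joint tail of the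
extents; (6) the scaling limits of the events one wall and both walls in terms of the
conformal map `f` of the upper half-plane onto the slit strip, which takes `x = α/(α+β)` to the tip,
where it behaves like `κ (z-x)²`, and `(-∞,0)`, `(1,∞)` to the walls. -/
theorem result :
    (∀ p r : ℕ, Even p → 0 < p → Even r → 0 < r →
      perc.real (ToLeft p r ∪ ToRight p r) = F p * F r / F (p + r)) ∧
    (∀ a b : ℕ, Even a → 0 < a → Even b → 0 < b →
      perc.real (LeftExt a ∩ RightExt b) = F a + F b - F a * F b / F (a + b) ∧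
      perc.real (LeftExt a ∪ RightExt b) = F a * F b / F (a + b)) ∧
    (∀ p r : ℕ → ℕ, Tendsto p atTop atTop → Tendsto r atTop atTop →
      Tendsto (fun n => perc.real (ToLeft (p n) (r n) ∪ ToRight (p n) (r n)) *
        ((p n : ℝ) * r n / (p n + r n))^((1:ℝ)/6)) atTop (𝓝 (√Real.pi / Real.Gamma (1/3))) ∧
      ∀ x : ℝ, Tendsto (fun n => (p n : ℝ) / (p n + r n)) atTop (𝓝 x) →
        Tendsto (fun n => perc.real (ToRight (p n) (r n)) /
          perc.real (ToLeft (p n) (r n) ∪ ToRight (p n) (r n))) atTop (𝓝 (x^((1:ℝ)/3))) ∧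
        Tendsto (fun n => perc.real (ToLeft (p n) (r n)) /
          perc.real (ToLeft (p n) (r n) ∪ ToRight (p n) (r n))) atTop (𝓝 ((1-x)^((1:ℝ)/3))) ∧
        Tendsto (fun n => perc.real (ToLeft (p n) (r n) ∩ ToRight (p n) (r n)) /
          perc.real (ToLeft (p n) (r n) ∪ ToRight (p n) (r n))) atTop
            (𝓝 (x^((1:ℝ)/3) + (1-x)^((1:ℝ)/3) - 1))) ∧
    (∀ (s t : ℝ), 0 < s → 0 < t → ∀ (δ : ℕ → ℝ) (a b : ℕ → ℕ), (∀ n, 0 < δ n) →
      Tendsto δ atTop (𝓝 0) → Tendsto (fun n => δ n * a n) atTop (𝓝 s) →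
      Tendsto (fun n => δ n * b n) atTop (𝓝 t) →
      Tendsto (fun n => perc.real (LeftExt (a n) ∩ RightExt (b n)) * (δ n)^(-((1:ℝ)/6))) atTop
        (𝓝 (√Real.pi / Real.Gamma (1/3) *
          (s^(-((1:ℝ)/6)) + t^(-((1:ℝ)/6)) - ((s + t) / (s * t))^((1:ℝ)/6))))) ∧
    ∀ α β : ℝ, 0 < α → 0 < β → ∃ (f : ℂ → ℂ) (κ : ℝ), Uniformizes α β (α / (α + β)) f ∧ 0 < κ ∧
      Tendsto (fun z : ℂ => ‖f z‖ / ‖z - (α / (α + β) : ℝ)‖ ^ 2)
        (𝓝[{z : ℂ | 0 < z.im}] ((α / (α + β) : ℝ) : ℂ)) (𝓝 κ) ∧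
      ∀ (δ : ℕ → ℝ) (p r : ℕ → ℕ), (∀ n, 0 < δ n) → Tendsto δ atTop (𝓝 0) →
        Tendsto (fun n => δ n * p n) atTop (𝓝 α) → Tendsto (fun n => δ n * r n) atTop (𝓝 β) →
        Tendsto (fun n => perc.real (ToLeft (p n) (r n) ∪ ToRight (p n) (r n)) *
          (δ n)^(-((1:ℝ)/6))) atTop
          (𝓝 (√Real.pi / (Real.Gamma (1/3) * (2 * Real.pi)^((1:ℝ)/6)) * κ^(-((1:ℝ)/6)) *
            (α / (α + β) * (1 - α / (α + β)))^(-((1:ℝ)/3)))) ∧
        Tendsto (fun n => perc.real (ToLeft (p n) (r n) ∩ ToRight (p n) (r n)) *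
          (δ n)^(-((1:ℝ)/6))) atTop
          (𝓝 (√Real.pi / (Real.Gamma (1/3) * (2 * Real.pi)^((1:ℝ)/6)) * κ^(-((1:ℝ)/6)) *
            ((α / (α + β))^(-((1:ℝ)/3)) + (1 - α / (α + β))^(-((1:ℝ)/3)) -
              (α / (α + β) * (1 - α / (α + β)))^(-((1:ℝ)/3))))) := by
  have hU : ∀ p r : ℕ, ToLeft p r ∪ ToRight p r = Pool.Agent.H29.TW.Hit p r := fun p r =>
    (Pool.Agent.H29.TW.hit_union p r).symm
  have hP : ∀ p r : ℕ, LeftExt p ∪ RightExt r = Pool.Agent.H29.TW.Hit p r := fun p r =>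
    Pool.Agent.H29.TW.hit_plane p r
  refine ⟨fun p r hp hp0 hr hr0 => ?_, fun a b ha ha0 hb hb0 => ⟨?_, ?_⟩,
    fun p r tp tr => ⟨?_, fun x hx => ⟨?_, ?_, ?_⟩⟩,
    fun s t hs ht δ a b h1 h2 h3 h4 => Pool.Agent.H29.TW.joint_scale hs ht δ a b h1 h2 h3 h4,
    fun α β hα hβ => ?_⟩
  · rw [hU]; exact Pool.Agent.H29.TW.hit_exact hp hp0 hr hr0
  · exact Pool.Agent.H29.TW.joint_exact ha ha0 hb hb0
  · rw [hP]; exact Pool.Agent.H29.TW.hit_exact ha ha0 hb hb0
  · simp only [hU]; exact Pool.Agent.H29.TW.hit_asymp p r tp tr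
  · simp only [hU]; exact Pool.Agent.H29.TW.right_cond p r tp tr hx
  · simp only [hU]; exact Pool.Agent.H29.TW.left_cond p r tp tr hx
  · simp only [hU]; exact Pool.Agent.H29.TW.both_cond p r tp tr hx
  · have hf := Pool.Agent.H863R4.uniformizes hα hβ
    refine ⟨Pool.Agent.H863R4.phi α β, Pool.Agent.R966.Tip.kq α β / Real.pi,
      ⟨hf.holo, hf.bij, hf.cont, hf.leftWall, hf.rightWall, hf.leftBank, hf.leftBank',
        hf.rightBank, hf.rightBank', hf.tip⟩, ?_, Pool.Agent.R966.Tip.phi_quad hα hβ, ?_⟩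
    · have := Real.pi_pos
      unfold Pool.Agent.R966.Tip.kq
      positivity
    · intro δ p r h1 h2 h3 h4
      refine ⟨?_, Pool.Agent.H29.TW.both_scale hα hβ δ p r h1 h2 h3 h4⟩
      simp only [hU]
      exact Pool.Agent.H29.TW.hit_scale' hα hβ δ p r h1 h2 h3 h4

end Pool.Agent.Results.MP_35f495_pr.SlitTipTwoWalls
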