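import Pool.Agent.H29.LE.Dep

/-!
# The tip of a slit in layered environments: exact universality, conformal covariance, independence

Bond percolation on `ℤ²` with independent edges. The horizontal edges of the layer `s` (the edges which
join the heights `s` and `s + 1`) are open with probability `h s`, the vertical edges of the layer with
probability `1 - h s`, where `h (2n) = 1 - h (2n-1)`; the environment `h` is otherwise arbitrary, and it
may be different on the right of the slit. For `h = 1/2` this is critical bond percolation on `ℤ²`.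

The slit is the part of the column `1` above its vertex `(1,0)` (the tip, of height `1`). In every such
environment the probability that the tip is joined to one of the two walls of a strip and the joint law
of the two horizontal extents of its open cluster in the slit plane (even distances) are exactly those of
critical percolation, and they have the same conformally covariant scaling limits, with the same
constants. For critical percolation the event of the strip is exactly independent of the differences of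
the anisotropies of the two layers of all the double layers of the three parts of the slit strip.

Coordinates: the column of the vertex `(u,v)` of `ℤ²` is `u - v`, its height is `u + v` (rotation by
45 degrees).
-/

set_option autoImplicit false

namespace Pool.Agent.Results.MP_35f495_pr.SlitTipUniversality

open MeasureTheory ProbabilityTheory unitInterval Filter Topology Set

/-- edges of `ℤ²`: `(u,v,false)` is the horizontal edge from `(u,v)` to `(u+1,v)`, `(u,v,true)` is the
vertical edge from `(u,v)` to `(u,v+1)`; the layer of the edge is `u + v` -/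
abbrev Edge := ℤ × ℤ × Bool

/-- configurations (`true` = open) -/
abbrev Conf := Edge → Bool

/-- `x` and `y` are the two ends of an open edge -/
def OpenAdj (ω : Conf) (x y : ℤ × ℤ) : Prop :=
  (y = (x.1 + 1, x.2) ∧ ω (x.1, x.2, false) = true) ∨
  (x = (y.1 + 1, y.2) ∧ ω (y.1, y.2, false) = true) ∨
  (y = (x.1, x.2 + 1) ∧ ω (x.1, x.2, true) = true) ∨
  (x = (y.1, y.2 + 1) ∧ ω (y.1, y.2, true) = true)

/-- bond percolation with independent edges, `p e` is the probability that `e` is open -/
noncomputable def perc (p : Edge → I) : Measure Conf :=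
  Measure.infinitePi (fun e : Edge => bernoulliMeasure true false (p e))

/-- the parameter `1/2`: `perc (fun _ => half)` is critical bond percolation on `ℤ²` -/
noncomputable def half : I := ⟨1/2, by norm_num, by norm_num⟩

/-- the environment: horizontal edges of the layer `s` are open with probability `h s`, vertical ones
with probability `1 - h s`; on the right of the slit `h` is replaced by `g` -/
def env (h g : ℤ → I) (e : Edge) : I :=
  let x := if 1 ≤ e.1 + e.2.1 ∧ 1 ≤ e.1 - e.2.1 then g (e.1 + e.2.1) else h (e.1 + e.2.1)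
  if e.2.2 then σ x else x

/-- the layers `2n-1` and `2n` have opposite anisotropies; on the left of the slit, on the right of
the slit and below there are infinitely many layers with parameters in `[ε, 1 - ε]`, for some
`ε > 0` -/
structure Env (h g : ℤ → I) : Prop where
  h_pair : ∀ n : ℤ, h (2 * n) = σ (h (2 * n - 1))
  g_pair : ∀ n : ℤ, g (2 * n) = σ (g (2 * n - 1))
  h_up : ∃ ε : ℝ, 0 < ε ∧ ∃ᶠ n : ℕ in atTop, ε ≤ (h (2 * n) : ℝ) ∧ (h (2 * n) : ℝ) ≤ 1 - ε
  g_up : ∃ ε : ℝ, 0 < ε ∧ ∃ᶠ n : ℕ in atTop, ε ≤ (g (2 * n) : ℝ) ∧ (g (2 * n) : ℝ) ≤ 1 - ε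
  h_down : ∃ ε : ℝ, 0 < ε ∧ ∃ᶠ n : ℕ in atTop, ε ≤ (h (-(2 * n)) : ℝ) ∧ (h (-(2 * n)) : ℝ) ≤ 1 - ε

/-- Open edges of the plane with a slit: the slit is the part of the column `1` above its vertex
`(1,0)` (the tip, of height `1`); the edges with both ends at height `≥ 1` and an end in the column
`1` are removed. -/
def SlitAdj (ω : Conf) (x y : ℤ × ℤ) : Prop :=
  OpenAdj ω x y ∧ ¬ (1 ≤ x.1 + x.2 ∧ 1 ≤ y.1 + y.2 ∧ (x.1 - x.2 = 1 ∨ y.1 - y.2 = 1))

/-- Open edges of the slit strip: both ends in the columns `[1-p, 1+r]`. -/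
def SAdj (p r : ℕ) (ω : Conf) (x y : ℤ × ℤ) : Prop :=
  SlitAdj ω x y ∧ 1 - (p:ℤ) ≤ x.1 - x.2 ∧ x.1 - x.2 ≤ 1 + r ∧ 1 - (p:ℤ) ≤ y.1 - y.2 ∧
    y.1 - y.2 ≤ 1 + r

/-- The tip is joined to the left wall (the column `1-p`) by an open path of the slit strip. -/
def ToLeft (p r : ℕ) : Set Conf :=
  {ω | ∃ y : ℤ × ℤ, y.1 - y.2 = 1 - p ∧ Relation.ReflTransGen (SAdj p r ω) (1, 0) y}

/-- The tip is joined to the right wall (the column `1+r`) by an open path of the slit strip. -/
def ToRight (p r : ℕ) : Set Conf :=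
  {ω | ∃ y : ℤ × ℤ, y.1 - y.2 = 1 + r ∧ Relation.ReflTransGen (SAdj p r ω) (1, 0) y}

/-- The open cluster of the tip in the slit plane reaches the column `1-a` (its leftward extent is
at least `a`). -/
def LeftExt (a : ℕ) : Set Conf :=
  {ω | ∃ y : ℤ × ℤ, y.1 - y.2 = 1 - a ∧ Relation.ReflTransGen (SlitAdj ω) (1, 0) y}

/-- The open cluster of the tip in the slit plane reaches the column `1+b` (its rightward extent is
at least `b`). -/
def RightExt (b : ℕ) : Set Conf :=
  {ω | ∃ y : ℤ × ℤ, y.1 - y.2 = 1 + b ∧ Relation.ReflTransGen (SlitAdj ω) (1, 0) y}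

/-- the product `s (s+1) ... (s+k-1)` -/
noncomputable def rising (s : ℝ) (k : ℕ) : ℝ := ∏ i ∈ Finset.range k, (s + i)

/-- `F n = (1/3)_n / (1/2)_n` -/
noncomputable def F (n : ℕ) : ℝ := rising (1/3) n / rising (1/2) n

/-- the slit strip `{-α < X < β} \ {X = 0, Y ≥ 0}` -/
def Dom (α β : ℝ) : Set ℂ := {w | -α < w.re ∧ w.re < β ∧ (w.re = 0 → w.im < 0)}

/-- `f` is an orientation reversing conformal map of the upper half-plane onto the slit strip, with
the boundary correspondence: left wall, left bank of the slit, tip, right bank, right wall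
= `(-∞,0)`, `(0,x)`, `x`, `(x,1)`, `(1,∞)`. -/
structure Uniformizes (α β x : ℝ) (f : ℂ → ℂ) : Prop where
  /-- the complex conjugate of `f` is holomorphic in the upper half-plane -/
  holo : DifferentiableOn ℂ (fun z => (starRingEnd ℂ) (f z)) {z | 0 < z.im}
  /-- `f` is a bijection of the upper half-plane onto the slit strip -/
  bij : BijOn f {z | 0 < z.im} (Dom α β)
  /-- `f` is continuous up to the boundary (without `0`, `1`) -/
  cont : ContinuousOn f {z : ℂ | 0 ≤ z.im ∧ z ≠ 0 ∧ z ≠ 1}
  /-- `(-∞,0)` is mapped to the left wall -/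
  leftWall : BijOn (fun t : ℝ => f t) (Iio 0) {w | w.re = -α}
  /-- `(1,∞)` is mapped to the right wall -/
  rightWall : BijOn (fun t : ℝ => f t) (Ioi 1) {w | w.re = β}
  /-- `(0,x)` is mapped to the left bank of the slit -/
  leftBank : BijOn (fun t : ℝ => f t) (Ioo 0 x) {w | w.re = 0 ∧ 0 < w.im}
  leftBank' : ∀ t ∈ Ioo 0 x, ∀ᶠ z in 𝓝[{z : ℂ | 0 < z.im}] (t : ℂ), (f z).re < 0
  /-- `(x,1)` is mapped to the right bank of the slit -/
  rightBank : BijOn (fun t : ℝ => f t) (Ioo x 1) {w | w.re = 0 ∧ 0 < w.im}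
  rightBank' : ∀ t ∈ Ioo x 1, ∀ᶠ z in 𝓝[{z : ℂ | 0 < z.im}] (t : ℂ), 0 < (f z).re
  /-- `x` is mapped to the tip of the slit -/
  tip : f (x : ℂ) = 0

/-- the edge in the unit square `[j, j+1] × [s, s+1]` of the (column, height) plane; its layer is `s` -/
def edge (j s : ℤ) : Edge :=
  if (s + j) % 2 = 0 then ((s + j) / 2, (s - j) / 2, false)
  else ((s + j + 1) / 2, (s - j - 1) / 2, true)

/-- `1` for an open horizontal edge, `-1` for an open vertical edge, `0` for a closed edge -/
def sgn (ω : Conf) (e : Edge) : ℤ := if ω e = true then (if e.2.2 = true then -1 else 1) else 0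

/-- the squares of the rows of the three parts of the slit strip: `l = 0` is the lower part (layers
`≤ 0`), `l = 1` the upper part on the left of the slit and `l = 2` the upper part on the right of the
slit (layers `≥ 1`); the squares of the removed edges are left out -/
noncomputable def cols (p r : ℕ) (l : Fin 3) : Finset ℤ :=
  if l = 0 then Finset.Icc (1 - (p:ℤ)) r else if l = 1 then Finset.Icc (1 - (p:ℤ)) (-1)
    else Finset.Icc 2 (r:ℤ)

/-- the odd layer of the `n`-th double layer of the part `l` -/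
def layer (l : Fin 3) (n : ℕ) : ℤ := if l = 0 then -(2 * (n:ℤ)) - 1 else 2 * n + 1

/-- The anisotropy of a layer in a part of the strip is the number of its open horizontal edges minus
the number of its open vertical edges. `D (l, n)` is the anisotropy of the odd layer minus the
anisotropy of the even layer, in the `n`-th double layer of the part `l`. -/
noncomputable def D (p r : ℕ) (ω : Conf) (i : Fin 3 × ℕ) : ℤ :=
  ∑ j ∈ cols p r i.1, (sgn ω (edge j (layer i.1 i.2)) - sgn ω (edge j (layer i.1 i.2 + 1)))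

theorem perc_half : Pool.Agent.H988R2.Perc.perc = perc (fun _ => half) := Q292.Env.perc_eq_percP

/-- **The tip of a slit in layered environments.** (1) exact probability that the tip is joined to one
of the walls; (2) exact joint law of the two extents; (3) asymptotics of (1) for all widths;
(4) scaling limit of the joint tail of the extents; (5) the scaling limit of (1) in terms of a
conformal map `f` of the upper half-plane onto the slit strip which behaves like `κ (z-x)²` at the
preimage `x = α/(α+β)` of the tip; (6) for `p = 1/2`, exact independence of the event of (1) and of the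
whole family `D`. -/
theorem result :
    (∀ h g : ℤ → I, Env h g →
      (∀ p r : ℕ, Even p → 0 < p → Even r → 0 < r →
        (perc (env h g)).real (ToLeft p r ∪ ToRight p r) = F p * F r / F (p + r)) ∧
      (∀ a b : ℕ, Even a → 0 < a → Even b → 0 < b →
        (perc (env h g)).real (LeftExt a) = F a ∧ (perc (env h g)).real (RightExt b) = F b ∧
        (perc (env h g)).real (LeftExt a ∩ RightExt b) = F a + F b - F a * F b / F (a + b)) ∧
      (∀ p r : ℕ → ℕ, Tendsto p atTop atTop → Tendsto r atTop atTop →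
        Tendsto (fun n => (perc (env h g)).real (ToLeft (p n) (r n) ∪ ToRight (p n) (r n)) *
          ((p n : ℝ) * r n / (p n + r n))^((1:ℝ)/6)) atTop (𝓝 (√Real.pi / Real.Gamma (1/3)))) ∧
      (∀ (s t : ℝ), 0 < s → 0 < t → ∀ (δ : ℕ → ℝ) (a b : ℕ → ℕ), (∀ n, 0 < δ n) →
        Tendsto δ atTop (𝓝 0) → Tendsto (fun n => δ n * a n) atTop (𝓝 s) →
        Tendsto (fun n => δ n * b n) atTop (𝓝 t) →
        Tendsto (fun n => (perc (env h g)).real (LeftExt (a n) ∩ RightExt (b n)) *
          (δ n)^(-((1:ℝ)/6))) atTop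
          (𝓝 (√Real.pi / Real.Gamma (1/3) *
            (s^(-((1:ℝ)/6)) + t^(-((1:ℝ)/6)) - ((s + t) / (s * t))^((1:ℝ)/6)))))) ∧
    (∀ α β : ℝ, 0 < α → 0 < β → ∃ (f : ℂ → ℂ) (κ : ℝ), Uniformizes α β (α / (α + β)) f ∧ 0 < κ ∧
      Tendsto (fun z : ℂ => ‖f z‖ / ‖z - (α / (α + β) : ℝ)‖ ^ 2)
        (𝓝[{z : ℂ | 0 < z.im}] ((α / (α + β) : ℝ) : ℂ)) (𝓝 κ) ∧
      ∀ h g : ℤ → I, Env h g →
      ∀ (δ : ℕ → ℝ) (p r : ℕ → ℕ), (∀ n, 0 < δ n) → Tendsto δ atTop (𝓝 0) →
        Tendsto (fun n => δ n * p n) atTop (𝓝 α) → Tendsto (fun n => δ n * r n) atTop (𝓝 β) →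
        Tendsto (fun n => (perc (env h g)).real (ToLeft (p n) (r n) ∪ ToRight (p n) (r n)) *
          (δ n)^(-((1:ℝ)/6))) atTop
          (𝓝 (√Real.pi / (Real.Gamma (1/3) * (2 * Real.pi)^((1:ℝ)/6)) * κ^(-((1:ℝ)/6)) *
            (α / (α + β) * (1 - α / (α + β)))^(-((1:ℝ)/3))))) ∧
    (∀ p r : ℕ, Even p → 0 < p → Even r → 0 < r →
      ∀ B : Set (Fin 3 × ℕ → ℤ), MeasurableSet B →
      (perc (fun _ => half)).real ((ToLeft p r ∪ ToRight p r) ∩ {ω | D p r ω ∈ B}) =
        (perc (fun _ => half)).real (ToLeft p r ∪ ToRight p r) *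
          (perc (fun _ => half)).real {ω | D p r ω ∈ B}) := by
  have hU : ∀ p r : ℕ, ToLeft p r ∪ ToRight p r = Pool.Agent.H29.TW.Hit p r := fun p r =>
    (Pool.Agent.H29.TW.hit_union p r).symm
  have hN : ∀ {h g : ℤ → I}, Env h g → Pool.Agent.H29.LE.NonT h g := fun hn =>
    ⟨hn.h_pair, hn.g_pair, hn.h_up, hn.g_up, hn.h_down⟩
  refine ⟨fun h g hn => ⟨fun p r hp hp0 hr hr0 => ?_, fun a b ha ha0 hb hb0 => ⟨?_, ?_, ?_⟩,
    fun p r tp tr => ?_, fun s t hs ht δ a b h1 h2 h3 h4 => ?_⟩, fun α β hα hβ => ?_,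
    fun p r hp hp0 hr hr0 B hB => ?_⟩
  · rw [hU]
    exact Pool.Agent.H29.LE.hitP_exact (hN hn) hp hp0 hr hr0
  · exact Pool.Agent.H29.LE.leftP_exact (hN hn) ha ha0
  · exact Pool.Agent.H29.LE.planeP_exact (hN hn) hb hb0
  · exact Pool.Agent.H29.LE.jointP_exact (hN hn) ha ha0 hb hb0
  · simp only [hU]
    exact Pool.Agent.H29.LE.hitP_asymp (hN hn) p r tp tr
  · exact Pool.Agent.H29.LE.jointP_scale (hN hn) hs ht δ a b h1 h2 h3 h4
  · have hf := Pool.Agent.H863R4.uniformizes hα hβ
    refine ⟨Pool.Agent.H863R4.phi α β, Pool.Agent.R966.Tip.kq α β / Real.pi,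
      ⟨hf.holo, hf.bij, hf.cont, hf.leftWall, hf.rightWall, hf.leftBank, hf.leftBank',
        hf.rightBank, hf.rightBank', hf.tip⟩, ?_, Pool.Agent.R966.Tip.phi_quad hα hβ, ?_⟩
    · have := Real.pi_pos
      unfold Pool.Agent.R966.Tip.kq
      positivity
    · intro h g hn δ p r h1 h2 h3 h4
      simp only [hU]
      exact Pool.Agent.H29.LE.hitP_scale' (hN hn) hα hβ δ p r h1 h2 h3 h4
  · have hD : D p r = fun ω i => Pool.Agent.H29.LE.DG (Pool.Agent.H29.LE.TT p r)
        Pool.Agent.H29.LE.sE ω i := by
      funext ω i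
      rw [Pool.Agent.H29.LE.DG_TT]
      rfl
    rw [hU, ← perc_half, hD]
    exact Pool.Agent.H29.LE.hit_indep hp hp0 hr hr0 B hB

end Pool.Agent.Results.MP_35f495_pr.SlitTipUniversality
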